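import Mathlib

namespace Pool.Agent.Results.MP_3eafcc_gt.Exists
open Topology Filter

/-- `f` lies in `T''(X)`: it is continuous on some dense cozero set. -/
def InT {X : Type} [TopologicalSpace X] (f : X → ℝ) : Prop :=
  ∃ g : X → ℝ, Continuous g ∧ Dense {x | g x ≠ 0} ∧ ContinuousOn f {x | g x ≠ 0}

abbrev Y := CofiniteTopology ℕ
abbrev W := {q : Y × ℝ // q.1 = CofiniteTopology.of 0 ∨ q.2 = 0}

lemma const {g : Y → ℝ} (hg : Continuous g) (a b : Y) : g a = g b :=
  isPreirreducible_iff_subsingleton.1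
    (PreirreducibleSpace.isPreirreducible_univ.image g hg.continuousOn)
    ⟨a, trivial, rfl⟩ ⟨b, trivial, rfl⟩

theorem result : ∃ (X : Type) (_ : TopologicalSpace X), T1Space X ∧ ∃ f : X → ℝ, InT f ∧
    (¬ ∃ g, InT g ∧ f * g = 1) ∧ ¬ ∃ g, InT g ∧ g ≠ 0 ∧ f * g = 0 := by
  refine ⟨W, inferInstance, inferInstance, fun q => q.1.2,
    ⟨fun _ => 1, continuous_const, by simp, by fun_prop⟩, ?_, ?_⟩
  · rintro ⟨g, -, h⟩
    simpa using congrFun h ⟨(_, 0), Or.inl rfl⟩
  rintro ⟨h, ⟨g, hg, hd, hc⟩, h0, e⟩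
  let i : Y → W := fun y => ⟨(y, 0), Or.inr rfl⟩
  let j : ℝ → W := fun t => ⟨(CofiniteTopology.of 0, t), Or.inl rfl⟩
  have ci : Continuous i := by fun_prop
  have cj : Continuous j := by fun_prop
  have z : ∀ q : W, q.1.2 ≠ 0 → h q = 0 := fun q hq => by simpa [hq] using congrFun e q
  have u : ∀ y, g (i y) ≠ 0 := by
    obtain ⟨⟨⟨y, t⟩, hq⟩, h1, h2⟩ := hd.inter_open_nonempty {q : W | q.1.1 ≠ CofiniteTopology.of 0}
      (isOpen_ne.preimage (by fun_prop : Continuous fun q : W => q.1.1))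
      ⟨i (CofiniteTopology.of 1), by simp [i]⟩
    obtain rfl : t = 0 := hq.resolve_left h1
    exact fun y' c => h2 ((const (hg.comp ci) y y').trans c)
  have c1 : Continuous (h ∘ i) := hc.comp_continuous ci u
  have c2 : ContinuousAt (h ∘ j) 0 :=
    ContinuousAt.comp (f := j) (hc.continuousAt ((isOpen_ne.preimage hg).mem_nhds (u _)))
      cj.continuousAt
  have p : h (j 0) = 0 := tendsto_nhds_unique (c2.tendsto.mono_left (nhdsWithin_le_nhds (s := {0}ᶜ)))
    (tendsto_const_nhds.congr' (by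
      filter_upwards [self_mem_nhdsWithin] with t ht using (z (j t) ht).symm))
  refine h0 (funext fun q => ?_)
  by_cases t : q.1.2 = 0
  · obtain ⟨⟨y, s⟩, hq⟩ := q
    obtain rfl : s = 0 := t
    exact (const c1 y _).trans p
  · exact z q t

end Pool.Agent.Results.MP_3eafcc_gt.Exists
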